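import Pool.Agent.Helper76.ND.StC

/-!
# Project ND: module Wh
-/

set_option autoImplicit false

namespace Pool.Agent.Helper3.ND

open Pool.Agent.Helper76.ND Finset

private lemma cos_far (x ε : ℝ) (hε : 0 < ε) (h : ∀ m : ℤ, ε / 2 ≤ |x - m|) :
    Real.cos (2 * Real.pi * x) ≤ Real.cos (Real.pi * ε) := by
  have hpi := Real.pi_pos
  set m := round x with hm
  set r := x - m with hr
  have hr1 : |r| ≤ 1 / 2 := abs_sub_round x
  have hr2 : ε / 2 ≤ |r| := h m
  have e1 : Real.cos (2 * Real.pi * x) = Real.cos (2 * Real.pi * |r|) := by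
    have : 2 * Real.pi * x = 2 * Real.pi * r + m * (2 * Real.pi) := by rw [hr]; ring
    rw [this, Real.cos_add_int_mul_two_pi]
    rcases abs_cases r with ⟨h1, _⟩ | ⟨h1, _⟩
    · rw [h1]
    · rw [h1, mul_neg, Real.cos_neg]
  rw [e1]
  apply Real.cos_le_cos_of_nonneg_of_le_pi
  · positivity
  · nlinarith
  · nlinarith

private lemma norm3 (a b c : ℝ) :
    ‖ev a + ev b + ev c‖ ^ 2 = 3 + 2 * (Real.cos (2 * Real.pi * (a - b)) +
      Real.cos (2 * Real.pi * (b - c)) + Real.cos (2 * Real.pi * (a - c))) := by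
  have he : ∀ x : ℝ, ev x = ⟨Real.cos (2 * Real.pi * x), Real.sin (2 * Real.pi * x)⟩ := by
    intro x
    unfold ev
    rw [show 2 * (Real.pi : ℂ) * (x : ℂ) * Complex.I = ((2 * Real.pi * x : ℝ) : ℂ) * Complex.I by
      push_cast; ring, Complex.exp_mul_I, ← Complex.ofReal_cos, ← Complex.ofReal_sin]
    apply Complex.ext
    · rw [Complex.add_re, Complex.mul_I_re, Complex.ofReal_re, Complex.ofReal_im]; ring
    · rw [Complex.add_im, Complex.mul_I_im, Complex.ofReal_im, Complex.ofReal_re]; ring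
  rw [← Complex.normSq_eq_norm_sq, he, he, he, Complex.normSq_apply]
  simp only [Complex.add_re, Complex.add_im]
  rw [mul_sub, mul_sub, mul_sub, Real.cos_sub, Real.cos_sub, Real.cos_sub]
  have h1 := Real.sin_sq_add_cos_sq (2 * Real.pi * a)
  have h2 := Real.sin_sq_add_cos_sq (2 * Real.pi * b)
  have h3 := Real.sin_sq_add_cos_sq (2 * Real.pi * c)
  nlinarith

private lemma fb4 (X : ℕ → ℝ) (hX : ∀ j, ∃ m : ℤ, 2 * X (j + 1) = X j + m) :
    fb 4 X = (3 + 2 * (Real.cos (2 * Real.pi * (3 * X 3)) + Real.cos (2 * Real.pi * (2 * X 3)) +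
      Real.cos (2 * Real.pi * (5 * X 3)))) / 9 := by
  obtain ⟨m1, h1⟩ := hX 1
  obtain ⟨m2, h2⟩ := hX 2
  have hc : ((4 - 1).choose 2 : ℝ) = 3 := by norm_num [Nat.choose]
  unfold fb
  rw [hc]
  have hs : (∑ p ∈ Icc 1 (4 - 1), ∑ r ∈ Icc (p + 1) (4 - 1), ev (X p + 3 * X r)) =
      ev (10 * X 3) + ev (7 * X 3) + ev (5 * X 3) := by
    have i1 : Icc 1 (4 - 1) = ({1, 2, 3} : Finset ℕ) := by decide
    have i2 : Icc (1 + 1) (4 - 1) = ({2, 3} : Finset ℕ) := by decide
    have i3 : Icc (2 + 1) (4 - 1) = ({3} : Finset ℕ) := by decide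
    have i4 : Icc (3 + 1) (4 - 1) = (∅ : Finset ℕ) := by decide
    rw [i1, sum_insert (by decide), sum_insert (by decide), sum_singleton, i2, i3, i4,
      sum_insert (by decide), sum_singleton, sum_singleton, sum_empty]
    have hx2 : X 2 = 2 * X 3 - m2 := by norm_num at h2; linarith
    have hx1 : X 1 = 4 * X 3 - 2 * m2 - m1 := by norm_num at h1; linarith
    have a1 : X 1 + 3 * X 2 = 10 * X 3 + ((-5 * m2 - m1 : ℤ) : ℝ) := by
      rw [hx1, hx2]; push_cast; ring
    have a2 : X 1 + 3 * X 3 = 7 * X 3 + ((-2 * m2 - m1 : ℤ) : ℝ) := by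
      rw [hx1]; push_cast; ring
    have a3 : X 2 + 3 * X 3 = 5 * X 3 + ((-m2 : ℤ) : ℝ) := by
      rw [hx2]; push_cast; ring
    rw [a1, a2, a3, ev_add_int, ev_add_int, ev_add_int]
    ring
  rw [hs, norm3]
  rw [show 10 * X 3 - 7 * X 3 = 3 * X 3 by ring, show 7 * X 3 - 5 * X 3 = 2 * X 3 by ring,
    show 10 * X 3 - 5 * X 3 = 5 * X 3 by ring]
  norm_num

theorem hWh (hPb : StPb) : StWh := by
  obtain ⟨hfb, hP, -, -, -, -, -, -⟩ := hPb
  intro ε hε hε4
  have hpi := Real.pi_pos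
  have hc0 : Real.cos (Real.pi * ε) < 1 := by
    have := Real.cos_lt_cos_of_nonneg_of_le_pi (x := 0) (y := Real.pi * ε) le_rfl
      (by nlinarith) (by positivity)
    rwa [Real.cos_zero] at this
  have hcm := Real.neg_one_le_cos (Real.pi * ε)
  refine ⟨(1 - Real.cos (Real.pi * ε)) / 24, by linarith, ?_⟩
  intro K X hX hfar
  rcases Nat.lt_or_ge K 4 with hK | hK
  · have h1 : ∑ b ∈ Icc 3 K, P3 b * fb b X ≤ P3 3 * fb 3 X := by
      have hsub : Icc 3 K ⊆ ({3} : Finset ℕ) := by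
        intro b hb; rw [mem_Icc] at hb; rw [mem_singleton]; omega
      refine (sum_le_sum_of_subset_of_nonneg hsub fun b _ _ =>
        mul_nonneg (P3_nonneg b) (fb_nonneg b X)).trans ?_
      rw [sum_singleton]
    have h2 : P3 3 = 1 / 8 := by unfold P3; norm_num [Nat.choose]
    have h3 := hfb 3 X
    rw [h2] at h1
    nlinarith [fb_nonneg 3 X]
  · have hmem : 4 ∈ Icc 3 K := by rw [mem_Icc]; omega
    have h4 : fb 4 X ≤ 1 - 2 / 9 * (1 - Real.cos (Real.pi * ε)) := by
      rw [fb4 X hX]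
      have hb5 := Real.cos_le_one (2 * Real.pi * (5 * X 3))
      have hb3 := Real.cos_le_one (2 * Real.pi * (3 * X 3))
      have hb2 := Real.cos_le_one (2 * Real.pi * (2 * X 3))
      by_cases h2 : ∀ m : ℤ, ε / 2 ≤ |2 * X 3 - m|
      · have := cos_far (2 * X 3) ε hε h2
        linarith
      · by_cases h3 : ∀ m : ℤ, ε / 2 ≤ |3 * X 3 - m|
        · have := cos_far (3 * X 3) ε hε h3
          linarith
        · exfalso
          push Not at h2 h3
          obtain ⟨m2, h2⟩ := h2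
          obtain ⟨m3, h3⟩ := h3
          have h5 := hfar (m3 - m2)
          rw [abs_lt] at h2 h3
          have h6 : |X 3 - ((m3 - m2 : ℤ) : ℝ)| < ε := by
            push_cast
            rw [abs_lt]
            constructor <;> linarith [h2.1, h2.2, h3.1, h3.2]
          linarith
    have h5 : ∑ b ∈ Icc 3 K, P3 b * fb b X ≤ ∑ b ∈ Icc 3 K, P3 b - P3 4 * (1 - fb 4 X) := by
      rw [← add_sum_erase _ _ hmem, ← add_sum_erase (Icc 3 K) P3 hmem]
      have : ∑ b ∈ (Icc 3 K).erase 4, P3 b * fb b X ≤ ∑ b ∈ (Icc 3 K).erase 4, P3 b :=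
        sum_le_sum fun b _ => by
          have := P3_nonneg b
          have := hfb b X
          nlinarith
      linarith
    have h6 : P3 4 = 3 / 16 := by unfold P3; norm_num [Nat.choose]
    have h7 := hP K
    rw [h6] at h5
    linarith

end Pool.Agent.Helper3.ND
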